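import Pool.Agent.QUD.StmtsC

/-!
# Squad QUD, row SFK: the corner terms of two supplementary angles
-/

set_option autoImplicit false

namespace Pool.Agent.QUD.H45

open Pool.Agent.QUD

/-- Row SFK. -/
theorem sfk : SfkStmt := by
  intro x hx
  have hx1 : -(Real.pi / 2) < x := (abs_lt.1 hx).1
  have hx2 : x < Real.pi / 2 := (abs_lt.1 hx).2
  have h1 : Real.arccos (Real.sin x) = Real.pi / 2 - x := by
    rw [Real.arccos, Real.arcsin_sin hx1.le hx2.le]
  have h2 : Real.arccos (-Real.sin x) = Real.pi / 2 + x := by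
    rw [Real.arccos_neg, h1]; ring
  have ha : Real.pi / 2 + x ≠ 0 := by linarith
  have hb : Real.pi / 2 - x ≠ 0 := by linarith
  have hc : Real.pi ^ 2 / 4 - |x| ^ 2 = (Real.pi / 2 + x) * (Real.pi / 2 - x) := by
    rw [sq_abs]; ring
  unfold fk sH
  rw [neg_neg, h1, h2, hc]
  have key : ∀ p a b : ℝ, a ≠ 0 → b ≠ 0 → a + b = p →
      (p ^ 2 - a ^ 2) / (6 * a) + (p ^ 2 - b ^ 2) / (6 * b) =
        p ^ 3 / 6 * (1 / (a * b)) - p / 6 := by
    intro p a b ha hb hp
    subst hp
    field_simp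
    ring
  exact key Real.pi (Real.pi / 2 + x) (Real.pi / 2 - x) ha hb (by ring)

end Pool.Agent.QUD.H45
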