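import Pool.Agent.QUD.StmtsU

/-!
# Squad QUD, row SQB: the density of type A as a single integral
-/

set_option autoImplicit false

namespace Pool.Agent.QUD.H45

open MeasureTheory Filter Topology Real Set Pool.Agent.AEU Pool.Agent.AEU.H12 Pool.Agent.XQ
  Pool.Agent.XQ.U Pool.Agent.QUD

theorem sqb_den {z : ℝ} (hz0 : 0 < z) (hz1 : z < 1) (t : ℝ) : 0 < 1 - z * sin t ^ 2 := by
  have h1 : sin t ^ 2 ≤ 1 := Real.sin_sq_le_one t
  nlinarith [sq_nonneg (sin t)]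

theorem sqb_X {z : ℝ} (hz0 : 0 < z) (t : ℝ) : z * sin t ^ 2 ∈ Icc 0 z := by
  have h1 : sin t ^ 2 ≤ 1 := Real.sin_sq_le_one t
  have h2 := sq_nonneg (sin t)
  constructor
  · positivity
  · nlinarith

theorem sqb_Y {z : ℝ} (hz0 : 0 < z) (hz1 : z < 1) (t : ℝ) : Pool.Agent.XQ.U.YY z t ∈ Icc 0 z := by
  have hd := sqb_den hz0 hz1 t
  have h2 := sq_nonneg (sin t)
  have h3 := sq_nonneg (cos t)
  have h4 := Real.sin_sq_add_cos_sq t
  unfold Pool.Agent.XQ.U.YY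
  constructor
  · positivity
  · rw [div_le_iff₀ hd]
    have h5 : 0 ≤ z * sin t ^ 2 * (1 - z) := mul_nonneg (mul_nonneg hz0.le h2) (by linarith)
    have h6 : cos t ^ 2 = 1 - sin t ^ 2 := by linarith
    rw [h6]
    nlinarith

theorem sqb_Yc {z : ℝ} (hz0 : 0 < z) (hz1 : z < 1) :
    Continuous (fun t => Pool.Agent.XQ.U.YY z t) := by
  unfold Pool.Agent.XQ.U.YY
  refine Continuous.div (by fun_prop) (by fun_prop) ?_
  intro t
  exact (sqb_den hz0 hz1 t).ne'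

theorem sqb_cont {F : ℝ → ℝ} {m z : ℝ} (hF : AnalyticOnNhd ℝ F (Ioo (-m) m)) (hz0 : 0 < z)
    (hzm : z < m) {g : ℝ → ℝ} (hg : Continuous g) (hgz : ∀ t, g t ∈ Icc 0 z) :
    Continuous (fun t => F (g t)) := by
  have h1 : ContinuousOn F (Ioo (-m) m) := hF.continuousOn
  exact h1.comp_continuous hg fun t => ⟨by linarith [(hgz t).1], by linarith [(hgz t).2]⟩

theorem sqb_int {f : ℝ → ℝ} (hf : Continuous f) : IntegrableOn f (Ioo 0 (π / 2)) :=
  (hf.integrableOn_Icc).mono_set Ioo_subset_Icc_self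

/-- Row SQB. -/
theorem sqb (inv : InvStmt) (anf : AnfStmt) (sing : Pool.Agent.XQ.U.SingStmt) : SqbStmt := by
  intro b x z hb hx hz
  obtain ⟨hzb, hlt, -⟩ := sing b hb
  have hzbx : zb b < zb x := hlt x hx
  have hx2 : x ∈ Ioo (1 : ℝ) 2 := ⟨hx.1, hx.2.trans hb.2⟩
  have hzb1 : zb b ≤ 1 := by
    unfold zb
    exact Real.cos_sq_le_one _
  have hz0 : 0 < z := hz.1
  have hz1 : z < 1 := lt_of_lt_of_le hz.2 hzb1
  have hFb := (anf b hb).1
  have hFx := (anf x hx2).1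
  have hXc : Continuous (fun t : ℝ => z * sin t ^ 2) := by fun_prop
  have hYc := sqb_Yc hz0 hz1
  have cbX := sqb_cont hFb hz0 hz.2 hXc (sqb_X hz0)
  have cbY := sqb_cont hFb hz0 hz.2 hYc (sqb_Y hz0 hz1)
  have cxX := sqb_cont hFx hz0 (hz.2.trans hzbx) hXc (sqb_X hz0)
  have cxY := sqb_cont hFx hz0 (hz.2.trans hzbx) hYc (sqb_Y hz0 hz1)
  have hsq : Continuous (fun t : ℝ => √(1 - z * sin t ^ 2)) := by fun_prop
  have hsq0 : ∀ t : ℝ, √(1 - z * sin t ^ 2) ≠ 0 := fun t =>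
    (Real.sqrt_pos.2 (sqb_den hz0 hz1 t)).ne'
  have c1 : Continuous (fun t => FR b (z * sin t ^ 2) * (FR x (z * sin t ^ 2) - FR x (YY z t))
      / √(1 - z * sin t ^ 2)) := (cbX.mul (cxX.sub cxY)).div hsq hsq0
  have c2 : Continuous (fun t => FR b (YY z t) * (FR x (z * sin t ^ 2) - FR x (YY z t))
      / √(1 - z * sin t ^ 2)) := (cbY.mul (cxX.sub cxY)).div hsq hsq0
  have i1 := sqb_int c1
  have i2 := sqb_int c2
  refine ⟨i1, ?_⟩
  have hinv := inv z (fun X Y => FR b Y * (FR x X - FR x Y)) hz0 hz1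
  have e2 : ∫ t in Ioo 0 (π / 2), FR b (YY z t) * (FR x (z * sin t ^ 2) - FR x (YY z t))
      / √(1 - z * sin t ^ 2) = ∫ t in Ioo 0 (π / 2),
        -(FR b (z * sin t ^ 2) * (FR x (z * sin t ^ 2) - FR x (YY z t))
          / √(1 - z * sin t ^ 2)) := by
    refine Eq.trans hinv ?_
    refine integral_congr_ae (Filter.Eventually.of_forall fun t => ?_)
    change FR b (z * sin t ^ 2) * (FR x (YY z t) - FR x (z * sin t ^ 2)) / √(1 - z * sin t ^ 2) = _
    ring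
  rw [integral_neg] at e2
  unfold DR dF
  have e3 : ∫ t in Ioo 0 (π / 2), (FR b (z * sin t ^ 2) - FR b (YY z t)) *
      (FR x (z * sin t ^ 2) - FR x (YY z t)) / √(1 - z * sin t ^ 2) =
      (∫ t in Ioo 0 (π / 2), FR b (z * sin t ^ 2) * (FR x (z * sin t ^ 2) - FR x (YY z t))
      / √(1 - z * sin t ^ 2)) - ∫ t in Ioo 0 (π / 2),
        FR b (YY z t) * (FR x (z * sin t ^ 2) - FR x (YY z t)) / √(1 - z * sin t ^ 2) := by
    rw [← integral_sub i1 i2]
    refine integral_congr_ae (Filter.Eventually.of_forall fun t => ?_)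
    change _ = _ - _
    ring
  rw [e3, e2]
  ring

end Pool.Agent.QUD.H45
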